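import Pool.Agent.Q213.SA.Main

/-!
# MP_96bd24_co: strong arboricity

`ζ(G) ≤ 2 d` for every `d`-degenerate finite graph `G`, hence `ζ(G) ≤ 4 arb(G) - 2`, and
`ζ(G) ≤ 2 arb(G)` if `G` is `arb(G)`-degenerate.
-/

set_option autoImplicit false

namespace Pool.Agent.Results.MP_96bd24_co.LinearBound

open Pool.Agent.Q213.SA

/-- Let `G` be a finite simple graph.
1. If the vertices have an injective numbering `r` such that every vertex `v` has at most `d` neighbours
   `u` with `r u < r v` (`G` is `d`-degenerate), then `ζ(G) ≤ 2 d`.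
2. `ζ(G) ≤ 4 arb(G) - 2` (truncated subtraction, which matters only if `arb(G) = 0`).
3. If `G` is `arb(G)`-degenerate then `ζ(G) ≤ 2 arb(G)`. -/
theorem result (V : Type) [Fintype V] (G : SimpleGraph V) :
    (∀ (d : ℕ) (r : V → ℕ), Function.Injective r →
      (∀ v, {u | G.Adj u v ∧ r u < r v}.ncard ≤ d) → zeta G ≤ 2 * d) ∧
    zeta G ≤ 4 * arb G - 2 ∧
    (∀ r : V → ℕ, Function.Injective r →
      (∀ v, {u | G.Adj u v ∧ r u < r v}.ncard ≤ arb G) → zeta G ≤ 2 * arb G) :=
  ⟨fun d r hr hd => zeta_le G d r hr hd, zeta_le_arb G, fun r hr hd => zeta_le G _ r hr hd⟩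

end Pool.Agent.Results.MP_96bd24_co.LinearBound
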